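import Pool.Agent.H97.PK.Targets3

/-!
Kneser-Poulsen up to a linear factor: the grid for radii of ratio at most `R` (module GRB).
-/

open MeasureTheory Set Metric Real

namespace Pool.Agent.H84.PK
open Pool.Agent.H97.PK

/-- Gluing a geometric tail to an initial grid. -/
theorem grb_core (D R s : ℝ) (hs0 : 0 < s) (hsD : s * s = D) (K1 K2 : ℕ) (y1 x1 : ℕ → ℝ)
    (hy1 : ∀ k, 0 < y1 k) (hx1 : ∀ k, 0 ≤ x1 k) (hD1 : D ≤ y1 K1)
    (hR : R ^ 2 ≤ (1 + 1 / s) ^ K2)
    (h1 : ∀ k (α : ℝ), k < K1 → 0 < α → α ≤ 1 → y1 k * α < D → y1 k ≤ y1 (k + 1) ∧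
      y1 (k + 1) * α ≤ y1 k * α + √(y1 k * α) ∧ √(y1 k * α) ≤ x1 k) :
    ∃ y x : ℕ → ℝ, (∀ k, 0 < y k) ∧ (∀ k, 0 ≤ x k) ∧ y 0 = y1 0 ∧ D * R ^ 2 ≤ y (K1 + K2) ∧
      (∀ k (α : ℝ), k < K1 + K2 → 0 < α → α ≤ 1 → y k * α < D → y k ≤ y (k + 1) ∧
        y (k + 1) * α ≤ y k * α + √(y k * α) ∧ √(y k * α) ≤ x k) ∧
      ∑ k ∈ Finset.range (K1 + K2), 64 * (x k + 1) =
        ∑ k ∈ Finset.range K1, 64 * (x1 k + 1) + K2 * (64 * (s + 1)) := by
  have hq : (0 : ℝ) < 1 + 1 / s := by positivity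
  refine ⟨fun k => if k ≤ K1 then y1 k else y1 K1 * (1 + 1 / s) ^ (k - K1),
    fun k => if k < K1 then x1 k else s, ?_, ?_, ?_, ?_, ?_, ?_⟩
  · intro k
    show 0 < (if k ≤ K1 then y1 k else y1 K1 * (1 + 1 / s) ^ (k - K1))
    split_ifs with h
    · exact hy1 k
    · exact mul_pos (hy1 K1) (pow_pos hq _)
  · intro k
    show 0 ≤ (if k < K1 then x1 k else s)
    split_ifs with h
    · exact hx1 k
    · exact hs0.le
  · simp
  · have hD0 : 0 ≤ D := by rw [← hsD]; positivity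
    have key : ∀ n : ℕ, (if K1 + n ≤ K1 then y1 (K1 + n) else y1 K1 * (1 + 1 / s) ^ (K1 + n - K1))
        = y1 K1 * (1 + 1 / s) ^ n := by
      intro n
      rcases Nat.eq_zero_or_pos n with rfl | hn
      · simp
      · rw [if_neg (by omega), Nat.add_sub_cancel_left]
    show D * R ^ 2 ≤ (if K1 + K2 ≤ K1 then y1 (K1 + K2) else
      y1 K1 * (1 + 1 / s) ^ (K1 + K2 - K1))
    rw [key]
    exact mul_le_mul hD1 hR (sq_nonneg R) (hy1 K1).le
  · intro k α hk hα hα1 hlt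
    by_cases hk1 : k < K1
    · have e1 : (if k ≤ K1 then y1 k else y1 K1 * (1 + 1 / s) ^ (k - K1)) = y1 k :=
        if_pos hk1.le
      have e2 : (if k + 1 ≤ K1 then y1 (k + 1) else y1 K1 * (1 + 1 / s) ^ (k + 1 - K1))
          = y1 (k + 1) := if_pos hk1
      have e3 : (if k < K1 then x1 k else s) = x1 k := if_pos hk1
      simp only [e1, e2, e3] at hlt ⊢
      exact h1 k α hk1 hα hα1 hlt
    · push Not at hk1
      obtain ⟨n, rfl⟩ := Nat.exists_eq_add_of_le hk1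
      have e1 : (if K1 + n ≤ K1 then y1 (K1 + n) else y1 K1 * (1 + 1 / s) ^ (K1 + n - K1))
          = y1 K1 * (1 + 1 / s) ^ n := by
        rcases Nat.eq_zero_or_pos n with rfl | hn
        · simp
        · rw [if_neg (by omega), Nat.add_sub_cancel_left]
      have e2 : (if K1 + n + 1 ≤ K1 then y1 (K1 + n + 1) else
          y1 K1 * (1 + 1 / s) ^ (K1 + n + 1 - K1)) = y1 K1 * (1 + 1 / s) ^ n * (1 + 1 / s) := by
        rw [if_neg (by omega), show K1 + n + 1 - K1 = n + 1 by omega, pow_succ, mul_assoc]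
      have e3 : (if K1 + n < K1 then x1 (K1 + n) else s) = s := if_neg (by omega)
      simp only [e1, e2, e3] at hlt ⊢
      obtain ⟨Y, hY⟩ : ∃ Y, Y = y1 K1 * (1 + 1 / s) ^ n := ⟨_, rfl⟩
      have hY0 : 0 < Y := by rw [hY]; exact mul_pos (hy1 K1) (pow_pos hq _)
      rw [← hY] at hlt ⊢
      have hsq : √(Y * α) ≤ s := by
        rw [show s = √D by rw [← hsD]; exact (Real.sqrt_mul_self hs0.le).symm]
        exact Real.sqrt_le_sqrt hlt.le
      refine ⟨?_, ?_, hsq⟩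
      · have : 0 ≤ 1 / s := by positivity
        nlinarith
      · have h2 : Y * α = √(Y * α) * √(Y * α) := (Real.mul_self_sqrt (by positivity)).symm
        have h3 : Y * α / s ≤ √(Y * α) := by
          rw [div_le_iff₀ hs0]
          calc Y * α = √(Y * α) * √(Y * α) := h2
            _ ≤ √(Y * α) * s := mul_le_mul_of_nonneg_left hsq (Real.sqrt_nonneg _)
        calc Y * (1 + 1 / s) * α = Y * α + Y * α / s := by ring
          _ ≤ Y * α + √(Y * α) := by linarith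
  · rw [Finset.sum_range_add]
    congr 1
    · apply Finset.sum_congr rfl
      intro k hk
      rw [Finset.mem_range] at hk
      show 64 * ((if k < K1 then x1 k else s) + 1) = _
      rw [if_pos hk]
    · have : ∀ k ∈ Finset.range K2, 64 * ((if K1 + k < K1 then x1 (K1 + k) else s) + 1)
          = 64 * (s + 1) := by
        intro k _
        rw [if_neg (by omega)]
      rw [Finset.sum_congr rfl this]
      simp

theorem pf_grb : T_GRB := by
  intro D R hD hR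
  obtain ⟨s, hs⟩ : ∃ s, s = √D := ⟨_, rfl⟩
  have hsD : s * s = D := by rw [hs]; exact Real.mul_self_sqrt (by linarith)
  have hs0 : 0 < s := by rw [hs]; exact Real.sqrt_pos.mpr (by linarith)
  have hs17 : 1.73 < s := by nlinarith
  have hlR : 0 ≤ log R := Real.log_nonneg hR
  have hl : 1 / (s + 1) ≤ log (1 + 1 / s) := by
    have h := Real.one_sub_inv_le_log_of_pos (show 0 < 1 + 1 / s by positivity)
    have : 1 - (1 + 1 / s)⁻¹ = 1 / (s + 1) := by
      have : s ≠ 0 := hs0.ne'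
      have : s + 1 ≠ 0 := by positivity
      field_simp
      ring
    linarith
  have hlpos : 0 < log (1 + 1 / s) := lt_of_lt_of_le (by positivity) hl
  obtain ⟨K2, hK2⟩ : ∃ K2 : ℕ, K2 = ⌈2 * log R / log (1 + 1 / s)⌉₊ := ⟨_, rfl⟩
  have hK2a : 2 * log R / log (1 + 1 / s) ≤ K2 := by rw [hK2]; exact Nat.le_ceil _
  have hK2b : (K2 : ℝ) ≤ 2 * (s + 1) * log R + 1 := by
    have h1 : (K2 : ℝ) < 2 * log R / log (1 + 1 / s) + 1 := by
      rw [hK2]
      exact Nat.ceil_lt_add_one (by positivity)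
    have h2 : 2 * log R / log (1 + 1 / s) ≤ 2 * (s + 1) * log R := by
      rw [div_le_iff₀ hlpos]
      have h3 : 1 ≤ (s + 1) * log (1 + 1 / s) := by
        rw [div_le_iff₀ (by positivity)] at hl
        linarith
      nlinarith [mul_le_mul_of_nonneg_left h3 hlR]
    linarith
  have hK2c : R ^ 2 ≤ (1 + 1 / s) ^ K2 := by
    have hR0 : 0 < R := by linarith
    have hq : (0 : ℝ) < 1 + 1 / s := by positivity
    rw [← Real.log_le_log_iff (by positivity) (by positivity), Real.log_pow, Real.log_pow]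
    rw [div_le_iff₀ hlpos] at hK2a
    exact_mod_cast hK2a
  by_cases h4 : D ≤ 4
  · obtain ⟨y, x, hy, hx, hy0, hDR, hc, hsum⟩ := grb_core D R s hs0 hsD 0 K2 (fun _ => D)
      (fun _ => s) (fun _ => by linarith) (fun _ => hs0.le) le_rfl hK2c
      (fun k α hk => absurd hk (Nat.not_lt_zero k))
    refine ⟨0 + K2, y, x, hy, hx, by rw [hy0]; exact h4, by rw [hy0]; linarith, hDR, hc, ?_⟩
    rw [hsum, Finset.sum_range_zero]
    push_cast
    have h5 : (K2 : ℝ) * (64 * s + 72) ≤ (2 * (s + 1) * log R + 1) * (64 * s + 72) :=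
      mul_le_mul_of_nonneg_right hK2b (by positivity)
    have h6 : log R * (128 * s ^ 2 + 272 * s + 144) ≤ log R * (340 * s ^ 2) :=
      mul_le_mul_of_nonneg_left (by nlinarith) hlR
    rw [← hsD]
    nlinarith
  · push Not at h4
    have hs2 : 2 < s := by nlinarith
    obtain ⟨K1, hK1⟩ : ∃ K1 : ℕ, K1 = ⌈(5 / 2 : ℝ) * (s - 2)⌉₊ := ⟨_, rfl⟩
    have hK1a : (5 / 2 : ℝ) * (s - 2) ≤ K1 := by rw [hK1]; exact Nat.le_ceil _
    have hK1b : (K1 : ℝ) ≤ 5 / 2 * s - 4 := by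
      have h1 : (K1 : ℝ) < (5 / 2 : ℝ) * (s - 2) + 1 := by
        rw [hK1]
        exact Nat.ceil_lt_add_one (by nlinarith)
      linarith
    obtain ⟨y, x, hy, hx, hy0, hDR, hc, hsum⟩ := grb_core D R s hs0 hsD K1 K2
      (fun k => (2 + 2 / 5 * (k : ℝ)) ^ 2) (fun k => 2 + 2 / 5 * (k : ℝ))
      (fun k => by positivity) (fun k => by positivity)
      (by
        show D ≤ (2 + 2 / 5 * (K1 : ℝ)) ^ 2
        rw [← hsD]
        have : s ≤ 2 + 2 / 5 * (K1 : ℝ) := by linarith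
        nlinarith) hK2c
      (by
        intro k α hk hα hα1 hlt
        show (2 + 2 / 5 * (k : ℝ)) ^ 2 ≤ (2 + 2 / 5 * ((k + 1 : ℕ) : ℝ)) ^ 2 ∧
          (2 + 2 / 5 * ((k + 1 : ℕ) : ℝ)) ^ 2 * α ≤
            (2 + 2 / 5 * (k : ℝ)) ^ 2 * α + √((2 + 2 / 5 * (k : ℝ)) ^ 2 * α) ∧
          √((2 + 2 / 5 * (k : ℝ)) ^ 2 * α) ≤ 2 + 2 / 5 * (k : ℝ)
        have hk0 : (0 : ℝ) ≤ k := Nat.cast_nonneg k
        have hsq : √((2 + 2 / 5 * (k : ℝ)) ^ 2 * α) = (2 + 2 / 5 * (k : ℝ)) * √α := by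
          rw [Real.sqrt_mul (by positivity), Real.sqrt_sq (by positivity)]
        have hα2 : α ≤ √α := by
          have h7 : √α ≤ 1 := Real.sqrt_le_one.mpr hα1
          calc α = √α * √α := (Real.mul_self_sqrt hα.le).symm
            _ ≤ √α * 1 := mul_le_mul_of_nonneg_left h7 (Real.sqrt_nonneg _)
            _ = √α := mul_one _
        have hα3 : √α ≤ 1 := Real.sqrt_le_one.mpr hα1
        rw [hsq]
        push_cast
        obtain ⟨σ, hσ⟩ : ∃ σ, σ = 2 + 2 / 5 * (k : ℝ) := ⟨_, rfl⟩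
        have hσ2 : 2 ≤ σ := by rw [hσ]; linarith
        rw [show 2 + 2 / 5 * ((k : ℝ) + 1) = σ + 2 / 5 by rw [hσ]; ring, ← hσ]
        refine ⟨by nlinarith, ?_, by nlinarith⟩
        have h8 : ((σ + 2 / 5) ^ 2 - σ ^ 2) * α ≤ σ * α :=
          mul_le_mul_of_nonneg_right (by nlinarith) hα.le
        have h9 : σ * α ≤ σ * √α := mul_le_mul_of_nonneg_left hα2 (by linarith)
        nlinarith)
    refine ⟨K1 + K2, y, x, hy, hx, ?_, ?_, hDR, hc, ?_⟩
    · rw [hy0]; norm_num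
    · rw [hy0]; norm_num; linarith
    · rw [hsum]
      have hs1 : ∀ n : ℕ, ∑ k ∈ Finset.range n, 64 * ((2 + 2 / 5 * (k : ℝ)) + 1) =
          896 / 5 * (n : ℝ) + 64 / 5 * (n : ℝ) ^ 2 := by
        intro n
        induction n with
        | zero => simp
        | succ m ih => rw [Finset.sum_range_succ, ih]; push_cast; ring
      rw [hs1]
      push_cast
      have h5 : (K2 : ℝ) * (64 * s + 72) ≤ (2 * (s + 1) * log R + 1) * (64 * s + 72) :=
        mul_le_mul_of_nonneg_right hK2b (by positivity)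
      have h6 : log R * (128 * s ^ 2 + 272 * s + 144) ≤ log R * (340 * s ^ 2) :=
        mul_le_mul_of_nonneg_left (by nlinarith) hlR
      have h10 : (K1 : ℝ) ^ 2 ≤ (5 / 2 * s - 4) ^ 2 := by
        have : (0 : ℝ) ≤ K1 := Nat.cast_nonneg K1
        nlinarith
      rw [← hsD]
      nlinarith [sq_nonneg (s - 2.3)]

end Pool.Agent.H84.PK
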